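import Mathlib
import Pool.Agent.Lib_helper46.Twist.Final

set_option autoImplicit false

/-!
# Twisted equations over a free group with fixed rank, unknowns and automorphisms
-/

namespace Pool.Agent.Results.MP_8b7a67_al.FixedAutomorphisms

open Pool.Agent.Lib_helper46.Twist

/-- A group word in the basis elements of the free group of rank `r` (`Sum.inl a`) and in the
symbols `x_i^{φ_j}`, `i < k`, `j < m` (`Sum.inr (i, j)`), and their inverses: a list of letters
with a sign, `true` for the letter itself and `false` for its inverse. -/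
abbrev Word (r k m : ℕ) : Type := List ((Fin r ⊕ Fin k × Fin m) × Bool)

/-- The value of a letter for the assignment `x_i ↦ x i`: a basis element is itself and
`x_i^{φ_j}` is `φ j (x i)`. -/
def letter {r k m : ℕ} (φ : Fin m → MulAut (FreeGroup (Fin r))) (x : Fin k → FreeGroup (Fin r)) :
    Fin r ⊕ Fin k × Fin m → FreeGroup (Fin r)
  | Sum.inl a => FreeGroup.of a
  | Sum.inr (i, j) => φ j (x i)

/-- The value of a word: the product of the values of its letters, with their signs. -/
def value {r k m : ℕ} (φ : Fin m → MulAut (FreeGroup (Fin r))) (x : Fin k → FreeGroup (Fin r))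
    (w : Word r k m) : FreeGroup (Fin r) :=
  (w.map fun p => if p.2 = true then letter φ x p.1 else (letter φ x p.1)⁻¹).prod

/-- The twisted equation `w = 1` is soluble in the free group of rank `r`. -/
def Soluble {r k m : ℕ} (φ : Fin m → MulAut (FreeGroup (Fin r))) (w : Word r k m) : Prop :=
  ∃ x : Fin k → FreeGroup (Fin r), value φ x w = 1

/-- translation of a letter -/
def conv (r N : ℕ) (q : (ℕ ⊕ ℕ) × Bool) : Word r N 10 :=
  match q.1 with
  | Sum.inl m => if h : m < r then [(Sum.inl ⟨m, h⟩, q.2)] else []
  | Sum.inr j => if h : j < N then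
      [(Sum.inr (⟨j / 10, lt_of_le_of_lt (Nat.div_le_self j 10) h⟩,
        ⟨j % 10, Nat.mod_lt _ (by norm_num)⟩), q.2)] else []

/-- the automorphisms -/
noncomputable def au {r : ℕ} (hr : 6 ≤ r) (j : Fin 10) : MulAut (FreeGroup (Fin r)) :=
  MulEquiv.ofBijective (actr r (opc j.val)) (actr_bij hr (opc j.val))

theorem value_append {r k m : ℕ} (φ : Fin m → MulAut (FreeGroup (Fin r)))
    (x : Fin k → FreeGroup (Fin r)) (u v : Word r k m) :
    value φ x (u ++ v) = value φ x u * value φ x v := by
  unfold value
  rw [List.map_append, List.prod_append]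

theorem value_conv {r N : ℕ} (hr : 6 ≤ r) (x : ℕ → FreeGroup (Fin r)) (q : (ℕ ⊕ ℕ) × Bool)
    (hq : ∀ j, q.1 = Sum.inr j → j < N) :
    value (au hr) (fun i : Fin N => x i.val) (conv r N q) =
      evr r (SS r N) x (FreeGroup.mk [q]) := by
  obtain ⟨q, b⟩ := q
  have hmk : ∀ g : FreeGroup (Fin r), evr r (SS r N) x (FreeGroup.of q) = g →
      evr r (SS r N) x (FreeGroup.mk [(q, b)]) = if b = true then g else g⁻¹ := by
    intro g hg
    cases b
    · have : (FreeGroup.mk [(q, false)] : G) = (FreeGroup.of q)⁻¹ := rfl
      rw [this, map_inv, hg]; rfl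
    · have : (FreeGroup.mk [(q, true)] : G) = FreeGroup.of q := rfl
      rw [this, hg]; rfl
  rcases q with m | j
  · by_cases h : m < r
    · rw [hmk (FreeGroup.of (⟨m, h⟩ : Fin r)) (by rw [evr_inl (N := N), inc_L h])]
      simp [conv, h, value, letter]
    · rw [hmk 1 (by rw [evr_inl (N := N)]; simp [inc, h])]
      simp [conv, h, value]
  · have h : j < N := hq j rfl
    rw [hmk _ (evr_inr h x)]
    simp [conv, h, value, letter, au]

theorem value_flatMap {r N : ℕ} (hr : 6 ≤ r) (x : ℕ → FreeGroup (Fin r))
    (w : List ((ℕ ⊕ ℕ) × Bool)) (hw : ∀ q ∈ w, ∀ j, q.1 = Sum.inr j → j < N) :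
    value (au hr) (fun i : Fin N => x i.val) (w.flatMap (conv r N)) =
      evr r (SS r N) x (FreeGroup.mk w) := by
  induction w with
  | nil =>
    change (1 : FreeGroup (Fin r)) = evr r (SS r N) x 1
    rw [map_one]
  | cons q w ih =>
    have h1 : (FreeGroup.mk (q :: w) : G) = FreeGroup.mk [q] * FreeGroup.mk w := rfl
    rw [h1, map_mul, ← ih fun q hq => hw q (List.mem_cons_of_mem _ hq),
      ← value_conv hr x q (hw q List.mem_cons_self), ← value_append]
    rfl

/-- reduction of one r.e. set -/
theorem reduce {p : ℕ → Prop} (hp : REPred p) :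
    ∃ (r k : ℕ) (φ : Fin 10 → MulAut (FreeGroup (Fin r))) (f : ℕ → Word r k 10),
      Computable f ∧ ∀ n, p n ↔ Soluble φ (f n) := by
  obtain ⟨r, N, j, W, hr, hN, hW⟩ := exists_family hp
  refine ⟨r, N, au hr, fun n => (word j W n).flatMap (conv r N), ?_, fun n => ?_⟩
  · apply Primrec.to_comp
    have e : ∀ n, (word j W n).flatMap (conv r N) =
        conv r N (Sum.inl 6, true) ++ ((List.range n).map (fun _ =>
          ((Sum.inl (⟨0, by omega⟩ : Fin r), false) : (Fin r ⊕ Fin N × Fin 10) × Bool)) ++
        (([(Sum.inr j, true), (Sum.inl 6, false), (Sum.inr j, false)] :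
            List ((ℕ ⊕ ℕ) × Bool)).flatMap (conv r N) ++
        ((List.range n).map (fun _ =>
          ((Sum.inl (⟨0, by omega⟩ : Fin r), true) : (Fin r ⊕ Fin N × Fin 10) × Bool)) ++
          W.flatMap (conv r N)))) := by
      intro n
      have e0 : ∀ b : Bool, ((List.range n).map (fun _ =>
          ((Sum.inl 0, b) : (ℕ ⊕ ℕ) × Bool))).flatMap (conv r N) =
          (List.range n).map (fun _ =>
          ((Sum.inl (⟨0, by omega⟩ : Fin r), b) : (Fin r ⊕ Fin N × Fin 10) × Bool)) := by
        intro b
        have h0 : conv r N (Sum.inl 0, b) =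
            [((Sum.inl (⟨0, by omega⟩ : Fin r), b) : (Fin r ⊕ Fin N × Fin 10) × Bool)] := by
          simp [conv, show 0 < r by omega]
        rw [List.flatMap_map]
        simp only [h0]
        induction List.range n with
        | nil => rfl
        | cons a l ih => rw [List.flatMap_cons, ih]; rfl
      simp only [word, List.flatMap_append, e0, List.flatMap_cons, List.flatMap_nil,
        List.append_nil]
    rw [show (fun n => (word j W n).flatMap (conv r N)) = _ from funext e]
    exact Primrec.list_append.comp (Primrec.const _) (Primrec.list_append.comp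
      (Primrec.list_map Primrec.list_range (Primrec.const _).to₂)
      (Primrec.list_append.comp (Primrec.const _) (Primrec.list_append.comp
        (Primrec.list_map Primrec.list_range (Primrec.const _).to₂) (Primrec.const _))))
  · rw [hW n]
    constructor
    · rintro ⟨x, hx⟩
      exact ⟨fun i => x i.val, (value_flatMap hr x _ (hN n)).trans hx⟩
    · rintro ⟨x, hx⟩
      refine ⟨fun i => if h : i < N then x ⟨i, h⟩ else 1, ?_⟩
      rw [← value_flatMap hr _ _ (hN n)]
      have : (fun i : Fin N => (if h : i.val < N then x ⟨i.val, h⟩ else 1 :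
          FreeGroup (Fin r))) = x := by
        funext i
        simp
      rw [this]
      exact hx

/-- the halting problem -/
def Halt (n : ℕ) : Prop :=
  (Nat.Partrec.Code.eval (Denumerable.ofNat Nat.Partrec.Code n) 0).Dom

theorem halt_re : REPred Halt :=
  Partrec.comp (ComputablePred.halting_problem_re 0) (Computable.ofNat Nat.Partrec.Code)

theorem halt_not : ¬ ComputablePred Halt := by
  intro h
  apply ComputablePred.halting_problem 0
  rw [ComputablePred.computable_iff] at h ⊢
  obtain ⟨f, hf, h⟩ := h
  refine ⟨fun c => f (Encodable.encode c), hf.comp Computable.encode, ?_⟩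
  funext c
  have := congrFun h (Encodable.encode c)
  simpa [Halt] using this

/-- the halting problem is many-one complete -/
theorem halt_hard {p : ℕ → Prop} (hp : REPred p) :
    ∃ g : ℕ → ℕ, Computable g ∧ ∀ n, p n ↔ Halt (g n) := by
  have h1 : Partrec fun m : ℕ => (Part.assert (p m.unpair.1) fun _ => Part.some ()).map
      (fun _ => (0 : ℕ)) :=
    Partrec.map (Partrec.comp hp (Computable.fst.comp Computable.unpair))
      (Computable.const 0).to₂
  obtain ⟨c, hc⟩ := Nat.Partrec.Code.exists_code.1 (Partrec.nat_iff.1 h1)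
  refine ⟨fun n => Encodable.encode (Nat.Partrec.Code.curry c n), ?_, fun n => ?_⟩
  · exact Computable.encode.comp
      (Nat.Partrec.Code.primrec₂_curry.comp (Primrec.const c) Primrec.id).to_comp
  · unfold Halt
    rw [Denumerable.ofNat_encode, Nat.Partrec.Code.eval_curry, hc]
    simp [Part.assert]

/-- **Twisted equations over free groups.** There are a rank `r`, a number `k` of unknowns and ten
automorphisms of the free group of rank `r` such that no algorithm decides, for a word in the
basis elements and the symbols `x_i^{φ_j}`, whether the twisted equation `w = 1` is soluble;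
moreover every recursively enumerable set of natural numbers is many-one reducible to this
problem. -/
theorem result : ∃ (r k : ℕ) (φ : Fin 10 → MulAut (FreeGroup (Fin r))),
    (¬ ComputablePred fun w : Word r k 10 => Soluble φ w) ∧
    ∀ p : ℕ → Prop, REPred p →
      ∃ f : ℕ → Word r k 10, Computable f ∧ ∀ n, p n ↔ Soluble φ (f n) := by
  obtain ⟨r, k, φ, f, hf, h⟩ := reduce halt_re
  refine ⟨r, k, φ, fun hc => halt_not ?_, fun p hp => ?_⟩
  · rw [ComputablePred.computable_iff] at hc ⊢
    obtain ⟨g, hg, hgs⟩ := hc
    refine ⟨fun n => g (f n), hg.comp hf, funext fun n => propext ?_⟩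
    rw [h n]
    exact iff_of_eq (congrFun hgs (f n))
  · obtain ⟨g, hg, hgp⟩ := halt_hard hp
    exact ⟨fun n => f (g n), hf.comp hg, fun n => (hgp n).trans (h (g n))⟩

end Pool.Agent.Results.MP_8b7a67_al.FixedAutomorphisms
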